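import Pool.Agent.R745.CDN.Defs

/-! `N_final 9` (generated; the argument is in `Pool/Agent/R745/CDN/NOTES.md`). -/

namespace R745CD

open Finset H825CD

namespace F9x

theorem aff_pos {α β s t u : ℝ} (h1 : s ≤ u) (h2 : u ≤ t) (h3 : 0 < α + β * s)
    (h4 : 0 < α + β * t) : 0 < α + β * u := by
  rcases le_total 0 β with h | h
  · have := mul_le_mul_of_nonneg_left h1 h
    linarith
  · have := mul_le_mul_of_nonpos_left h2 h
    linarith

theorem aff_pos' (g : ℝ → ℝ) (hg : ∀ u, g u = g 0 + (g 1 - g 0) * u) {s t u : ℝ} (h1 : s ≤ u)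
    (h2 : u ≤ t) (h3 : 0 < g s) (h4 : 0 < g t) : 0 < g u := by
  rw [hg] at h3 h4 ⊢
  exact aff_pos h1 h2 h3 h4

/-- scaled lower bound -/
noncomputable def FB (k l K L c z w x y : ℝ) : ℝ :=
  l * z + k * w + L * x + K * y - (1 / 25) * ((81 - k * l) * (z * w) +
    (9 * k + 9 * L - k * L) * (z * y) + (9 * K + 9 * l - K * l) * (x * w) +
    (81 - K * L) * (x * y)) - c

theorem box {k l K L c z1 w1 x1 y1 z w x y : ℝ} (hz : 1 ≤ z) (hz1 : z ≤ z1) (hw : 1 ≤ w)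
    (hw1 : w ≤ w1) (hx : 0 ≤ x) (hx1 : x ≤ x1) (hy : 0 ≤ y) (hy1 : y ≤ y1)
    (h : ∀ Z ∈ ({1, z1} : Set ℝ), ∀ W ∈ ({1, w1} : Set ℝ), ∀ X ∈ ({0, x1} : Set ℝ),
      ∀ Y ∈ ({0, y1} : Set ℝ), 0 < FB k l K L c Z W X Y) : 0 < FB k l K L c z w x y := by
  have A4 : ∀ Z ∈ ({1, z1} : Set ℝ), ∀ W ∈ ({1, w1} : Set ℝ), ∀ X ∈ ({0, x1} : Set ℝ),
      0 < FB k l K L c Z W X y := fun Z hZ W hW X hX =>
    aff_pos' (fun Y => FB k l K L c Z W X Y) (fun u => by simp only [FB]; ring) hy hy1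
      (h Z hZ W hW X hX 0 (by simp)) (h Z hZ W hW X hX y1 (by simp))
  have A3 : ∀ Z ∈ ({1, z1} : Set ℝ), ∀ W ∈ ({1, w1} : Set ℝ), 0 < FB k l K L c Z W x y :=
    fun Z hZ W hW =>
    aff_pos' (fun X => FB k l K L c Z W X y) (fun u => by simp only [FB]; ring) hx hx1
      (A4 Z hZ W hW 0 (by simp)) (A4 Z hZ W hW x1 (by simp))
  have A2 : ∀ Z ∈ ({1, z1} : Set ℝ), 0 < FB k l K L c Z w x y := fun Z hZ =>
    aff_pos' (fun W => FB k l K L c Z W x y) (fun u => by simp only [FB]; ring) hw hw1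
      (A3 Z hZ 1 (by simp)) (A3 Z hZ w1 (by simp))
  exact aff_pos' (fun Z => FB k l K L c Z w x y) (fun u => by simp only [FB]; ring) hz hz1
      (A2 1 (by simp)) (A2 z1 (by simp))

theorem it {m z w s c c' : ℝ} (hm0 : 0 < m) (hm : 25 * m ≤ 1) (hz : 0 ≤ z) (hs : 0 ≤ s)
    (hc : 0 ≤ c) (h : z * (1 - s * w) ≤ m) (hw : w ≤ c * m) (hd : 0 < 1 - s * c / 25)
    (hc' : 1 ≤ c' * (1 - s * c / 25)) : z ≤ c' * m := by
  have h0 : c * m ≤ c / 25 := by
    rw [le_div_iff₀ (by norm_num)]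
    nlinarith
  have h1 : s * w ≤ s * c / 25 := by
    have := mul_le_mul_of_nonneg_left (hw.trans h0) hs
    calc s * w ≤ s * (c / 25) := this
      _ = s * c / 25 := by ring
  have h2 : z * (1 - s * c / 25) ≤ m :=
    le_trans (mul_le_mul_of_nonneg_left (by linarith) hz) h
  have h3 : m * 1 ≤ m * (c' * (1 - s * c / 25)) := mul_le_mul_of_nonneg_left hc' hm0.le
  by_contra hcon
  push Not at hcon
  have h4 := mul_lt_mul_of_pos_right hcon hd
  nlinarith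

theorem nnA {u v : ℝ} (hu0 : 0 ≤ u) (hu : u ≤ 9) (hv0 : 0 ≤ v) (hv : v ≤ 9) :
    0 ≤ 81 - u * v := by
  have h1 : u * v ≤ 9 * v := mul_le_mul_of_nonneg_right hu hv0
  linarith

theorem nnB {u v : ℝ} (hu0 : 0 ≤ u) (hu : u ≤ 9) (hv0 : 0 ≤ v) (hv : v ≤ 9) :
    0 ≤ 9 * u + 9 * v - u * v := by
  have h1 := mul_nonneg hu0 (sub_nonneg.2 hv)
  linarith

theorem core {m k l K L z w x y p r W10 W11 Z10 Z11 c : ℝ} (hkl : k + l = 9) (hKL : K + L = 9)
    (hk : 0 ≤ k) (hl : 0 ≤ l) (hK : 0 ≤ K) (hL : 0 ≤ L)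
    (hz : 0 ≤ z) (hw : 0 ≤ w) (hx : 0 ≤ x) (hy : 0 ≤ y) (hp : 1 - k * z - K * x ≤ p)
    (hr : 1 - l * w - L * y ≤ r) (hp0 : 0 ≤ p) (hr0 : 0 ≤ r)
    (V1 : p * (r + 2 * 9 * (W10 + y) + 9 ^ 2 * W11) ≤ 1)
    (V2 : r * (p + 2 * 9 * (Z10 + x) + 9 ^ 2 * Z11) ≤ 1)
    (hZ : z ≤ Z10 + K * Z11) (hW : w ≤ W10 + L * W11)
    (hW11 : 0 ≤ W11) (hZ11 : 0 ≤ Z11)
    (h1 : 25 * (p * W11) ≤ m) (h2 : 25 * (r * Z11) ≤ m) (hc0 : 0 ≤ c)
    (hc1 : 9 / 2 * (2 * L - 9) ≤ 25 * c) (hc2 : 9 / 2 * (2 * K - 9) ≤ 25 * c) :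
    l * z + k * w + L * x + K * y - ((81 - k * l) * (z * w) +
    (9 * k + 9 * L - k * L) * (z * y) + (9 * K + 9 * l - K * l) * (x * w) +
    (81 - K * L) * (x * y)) ≤ c * m := by
  have e1 : p * w ≤ p * (W10 + L * W11) := mul_le_mul_of_nonneg_left hW hp0
  have e2 : r * z ≤ r * (Z10 + K * Z11) := mul_le_mul_of_nonneg_left hZ hr0
  have hpW : 0 ≤ p * W11 := mul_nonneg hp0 hW11
  have hrZ : 0 ≤ r * Z11 := mul_nonneg hr0 hZ11
  have e3 : 9 / 2 * (2 * L - 9) * (p * W11) + 9 / 2 * (2 * K - 9) * (r * Z11) ≤ c * m := by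
    rcases le_total (9 / 2) L with h | h
    · have f1 : 9 / 2 * (2 * L - 9) * (p * W11) ≤ 25 * c * (p * W11) :=
        mul_le_mul_of_nonneg_right hc1 hpW
      have f2 : 9 / 2 * (2 * K - 9) * (r * Z11) ≤ 0 :=
        mul_nonpos_of_nonpos_of_nonneg (by linarith) hrZ
      have f3 : c * (25 * (p * W11)) ≤ c * m := mul_le_mul_of_nonneg_left h1 hc0
      linarith
    · have f1 : 9 / 2 * (2 * K - 9) * (r * Z11) ≤ 25 * c * (r * Z11) :=
        mul_le_mul_of_nonneg_right hc2 hrZ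
      have f2 : 9 / 2 * (2 * L - 9) * (p * W11) ≤ 0 :=
        mul_nonpos_of_nonpos_of_nonneg (by linarith) hpW
      have f3 : c * (25 * (r * Z11)) ≤ c * m := mul_le_mul_of_nonneg_left h2 hc0
      linarith
  have e4 : p * r + 9 * (p * (w + y) + r * (z + x)) ≤ 1 + c * m := by nlinarith
  have e5 : (1 - k * z - K * x) * (r + 9 * (w + y)) ≤ p * (r + 9 * (w + y)) :=
    mul_le_mul_of_nonneg_right hp (by positivity)
  have e6 : (1 - l * w - L * y) * (1 - k * z - K * x + 9 * (z + x)) ≤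
      r * (1 - k * z - K * x + 9 * (z + x)) := by
    refine mul_le_mul_of_nonneg_right hr ?_
    have g1 : 0 ≤ (9 - k) * z := mul_nonneg (by linarith) hz
    have g2 : 0 ≤ (9 - K) * x := mul_nonneg (by linarith) hx
    linarith
  obtain rfl : k = 9 - l := by linarith
  obtain rfl : K = 9 - L := by linarith
  nlinarith

theorem scaled {m k l K L z w x y c : ℝ} (hm0 : 0 < m) (hm : 25 * m ≤ 1)
    (hA : 0 ≤ 81 - k * l) (hB : 0 ≤ 9 * k + 9 * L - k * L) (hC : 0 ≤ 9 * K + 9 * l - K * l)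
    (hD : 0 ≤ 81 - K * L)
    (hz : 0 ≤ z) (hw : 0 ≤ w) (hx : 0 ≤ x) (hy : 0 ≤ y)
    (h : l * z + k * w + L * x + K * y - ((81 - k * l) * (z * w) +
    (9 * k + 9 * L - k * L) * (z * y) + (9 * K + 9 * l - K * l) * (x * w) +
    (81 - K * L) * (x * y)) ≤ c * m) :
    FB k l K L c (z / m) (w / m) (x / m) (y / m) ≤ 0 := by
  set T : ℝ := ((81 - k * l) * (z * w) +
    (9 * k + 9 * L - k * L) * (z * y) + (9 * K + 9 * l - K * l) * (x * w) +
    (81 - K * L) * (x * y)) with hT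
  have hT0 : 0 ≤ T := by
    rw [hT]
    have a1 := mul_nonneg hA (mul_nonneg hz hw)
    have a2 := mul_nonneg hB (mul_nonneg hz hy)
    have a3 := mul_nonneg hC (mul_nonneg hx hw)
    have a4 := mul_nonneg hD (mul_nonneg hx hy)
    linarith
  have e : FB k l K L c (z / m) (w / m) (x / m) (y / m) =
      (l * z + k * w + L * x + K * y - c * m) / m - T / (25 * m) / m := by
    rw [hT, FB]
    field_simp
    try ring
  rw [e, ← sub_div]
  refine div_nonpos_of_nonpos_of_nonneg ?_ hm0.le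
  have h1 : T ≤ T / (25 * m) := by
    rw [le_div_iff₀ (by positivity)]
    nlinarith
  linarith

theorem jb {m a b z w k l : ℝ} (hm0 : 0 < m) (hm : 25 * m ≤ 1) (hkl : k + l = 9)
    (hk : 1 ≤ k) (hl : 1 ≤ l) (ha0 : 0 < a) (hb0 : 0 < b) (ha2 : a ≤ 1 / 2) (hb2 : b ≤ 1 / 2)
    (ha : a ≤ k * z) (hb : b ≤ l * w) (h1 : z * (1 - b + w) ≤ m) (h2 : w * (1 - a + z) ≤ m)
    (h3 : 9 * m < a + b - a * b) :
    m < z ∧ m < w ∧ z ≤ 2 * m ∧ w ≤ 2 * m ∧ z * (1 - (l - 1) * w) ≤ m ∧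
      w * (1 - (k - 1) * z) ≤ m := by
  have hz : 0 < z := by
    by_contra hc
    push Not at hc
    nlinarith
  have hw : 0 < w := by
    by_contra hc
    push Not at hc
    nlinarith
  have hzw := mul_pos hz hw
  refine ⟨?_, ?_, ?_, ?_, ?_, ?_⟩
  · have g1 : b * (1 - a) ≤ l * w * (1 - a) := mul_le_mul_of_nonneg_right hb (by linarith)
    have g2 : l * (w * (1 - a + z)) ≤ l * m := mul_le_mul_of_nonneg_left h2 (by linarith)
    have g3 : 0 ≤ l * (w * z) := by positivity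
    have g4 : k * m < k * z := by
      have : k * m = 9 * m - l * m := by rw [← hkl]; ring
      nlinarith
    exact lt_of_mul_lt_mul_left g4 (by linarith)
  · have g1 : a * (1 - b) ≤ k * z * (1 - b) := mul_le_mul_of_nonneg_right ha (by linarith)
    have g2 : k * (z * (1 - b + w)) ≤ k * m := mul_le_mul_of_nonneg_left h1 (by linarith)
    have g3 : 0 ≤ k * (z * w) := by positivity
    have g4 : l * m < l * w := by
      have : l * m = 9 * m - k * m := by rw [← hkl]; ring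
      nlinarith
    exact lt_of_mul_lt_mul_left g4 (by linarith)
  · nlinarith
  · nlinarith
  · nlinarith [mul_le_mul_of_nonneg_left hb hz.le]
  · nlinarith [mul_le_mul_of_nonneg_left ha hw.le]

theorem ib {m a b z w k l : ℝ} (hz : 0 ≤ z) (hw : 0 ≤ w) (ha2 : a ≤ 1 / 2) (hb2 : b ≤ 1 / 2)
    (ha : a ≤ k * z) (hb : b ≤ l * w) (h1 : z * (1 - b) ≤ m) (h2 : w * (1 - a) ≤ m) :
    z ≤ 2 * m ∧ w ≤ 2 * m ∧ z * (1 - l * w) ≤ m ∧ w * (1 - k * z) ≤ m := by
  have e1 := mul_le_mul_of_nonneg_left hb2 hz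
  have e2 := mul_le_mul_of_nonneg_left ha2 hw
  have e3 := mul_le_mul_of_nonneg_left hb hz
  have e4 := mul_le_mul_of_nonneg_left ha hw
  refine ⟨?_, ?_, ?_, ?_⟩ <;> linarith

/-- the cases `l = 1` and `k = 1` are impossible -/
theorem jno {m a b z w k l : ℝ} (hm0 : 0 < m) (hm : 25 * m ≤ 1) (hkl : k + l = 9)
    (hk : 1 ≤ k) (hl : 1 ≤ l) (h0 : k * l - k - l ≤ 0)
    (ha0 : 0 < a) (hb0 : 0 < b) (ha2 : a ≤ 1 / 2) (hb2 : b ≤ 1 / 2)
    (ha : a ≤ k * z) (hb : b ≤ l * w) (h1 : z * (1 - b + w) ≤ m) (h2 : w * (1 - a + z) ≤ m)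
    (h3 : 9 * m < a + b - a * b) : False := by
  obtain ⟨c1, c2, c3, c4, c5, c6⟩ := jb hm0 hm hkl hk hl ha0 hb0 ha2 hb2 ha hb h1 h2 h3
  have hz : 0 < z := by linarith
  have hw : 0 < w := by linarith
  have d1 : k * (z * (1 - (l - 1) * w)) ≤ k * m := mul_le_mul_of_nonneg_left c5 (by linarith)
  have d2 : l * (w * (1 - (k - 1) * z)) ≤ l * m := mul_le_mul_of_nonneg_left c6 (by linarith)
  have d3 : (k * l - k - l) * (z * w) ≤ 0 := mul_nonpos_of_nonpos_of_nonneg h0 (by positivity)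
  have d4 : l * w ≤ 1 := by
    have : l * w ≤ l * (2 * m) := mul_le_mul_of_nonneg_left c4 (by linarith)
    nlinarith
  have d5 : a * (1 - b) ≤ k * z * (1 - b) := mul_le_mul_of_nonneg_right ha (by linarith)
  have hkz : k * z ≤ 1 := by
    have : k * z ≤ k * (2 * m) := mul_le_mul_of_nonneg_left c3 (by linarith)
    nlinarith
  have d6 : b * (1 - k * z) ≤ l * w * (1 - k * z) := mul_le_mul_of_nonneg_right hb (by linarith)
  have d7 : 9 * m = k * m + l * m := by rw [← hkl]; ring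
  nlinarith

theorem bJ {m z w : ℝ} {l : ℕ} (hm0 : 0 < m) (hm : 25 * m ≤ 1) (hl1 : 2 ≤ l) (hl2 : l ≤ 7)
    (hz : 0 ≤ z) (hw : 0 ≤ w) (c3 : z ≤ 2 * m) (c4 : w ≤ 2 * m)
    (c5 : z * (1 - ((l : ℝ) - 1) * w) ≤ m) (c6 : w * (1 - ((9 - (l : ℝ)) - 1) * z) ≤ m) :
    (l = 2 ∧ z ≤ 53/50 * m ∧ w ≤ 67/50 * m) ∨
    (l = 3 ∧ z ≤ 28/25 * m ∧ w ≤ 129/100 * m) ∨
    (l = 4 ∧ z ≤ 59/50 * m ∧ w ≤ 31/25 * m) ∨
    (l = 5 ∧ z ≤ 31/25 * m ∧ w ≤ 59/50 * m) ∨
    (l = 6 ∧ z ≤ 129/100 * m ∧ w ≤ 28/25 * m) ∨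
    (l = 7 ∧ z ≤ 67/50 * m ∧ w ≤ 53/50 * m) := by
  interval_cases l
  · have c5 : z * (1 - 1 * w) ≤ m := by norm_num at c5 ⊢; exact c5
    have c6 : w * (1 - 6 * z) ≤ m := by norm_num at c6 ⊢; exact c6
    have z1 : z ≤ (1087/1000) * m := it hm0 hm hz (by norm_num) (by norm_num) c5 c4 (by norm_num) (by norm_num)
    have w2 : w ≤ (1353/1000) * m := it hm0 hm hw (by norm_num) (by norm_num) c6 z1 (by norm_num) (by norm_num)
    have z3 : z ≤ (529/500) * m := it hm0 hm hz (by norm_num) (by norm_num) c5 w2 (by norm_num) (by norm_num)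
    have w4 : w ≤ (1341/1000) * m := it hm0 hm hw (by norm_num) (by norm_num) c6 z3 (by norm_num) (by norm_num)
    have z5 : z ≤ (1057/1000) * m := it hm0 hm hz (by norm_num) (by norm_num) c5 w4 (by norm_num) (by norm_num)
    have w6 : w ≤ (67/50) * m := it hm0 hm hw (by norm_num) (by norm_num) c6 z5 (by norm_num) (by norm_num)
    have hz9 : z ≤ 53/50 * m := by linarith [z5]
    have hw9 : w ≤ 67/50 * m := by linarith [w6]
    simp [hz9, hw9]
  · have c5 : z * (1 - 2 * w) ≤ m := by norm_num at c5 ⊢; exact c5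
    have c6 : w * (1 - 5 * z) ≤ m := by norm_num at c6 ⊢; exact c6
    have z1 : z ≤ (1191/1000) * m := it hm0 hm hz (by norm_num) (by norm_num) c5 c4 (by norm_num) (by norm_num)
    have w2 : w ≤ (1313/1000) * m := it hm0 hm hw (by norm_num) (by norm_num) c6 z1 (by norm_num) (by norm_num)
    have z3 : z ≤ (559/500) * m := it hm0 hm hz (by norm_num) (by norm_num) c5 w2 (by norm_num) (by norm_num)
    have w4 : w ≤ (161/125) * m := it hm0 hm hw (by norm_num) (by norm_num) c6 z3 (by norm_num) (by norm_num)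
    have hz9 : z ≤ 28/25 * m := by linarith [z3]
    have hw9 : w ≤ 129/100 * m := by linarith [w4]
    simp [hz9, hw9]
  · have c5 : z * (1 - 3 * w) ≤ m := by norm_num at c5 ⊢; exact c5
    have c6 : w * (1 - 4 * z) ≤ m := by norm_num at c6 ⊢; exact c6
    have z1 : z ≤ (329/250) * m := it hm0 hm hz (by norm_num) (by norm_num) c5 c4 (by norm_num) (by norm_num)
    have w2 : w ≤ (1267/1000) * m := it hm0 hm hw (by norm_num) (by norm_num) c6 z1 (by norm_num) (by norm_num)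
    have z3 : z ≤ (59/50) * m := it hm0 hm hz (by norm_num) (by norm_num) c5 w2 (by norm_num) (by norm_num)
    have w4 : w ≤ (1233/1000) * m := it hm0 hm hw (by norm_num) (by norm_num) c6 z3 (by norm_num) (by norm_num)
    have hz9 : z ≤ 59/50 * m := by linarith [z3]
    have hw9 : w ≤ 31/25 * m := by linarith [w4]
    simp [hz9, hw9]
  · have c5 : z * (1 - 4 * w) ≤ m := by norm_num at c5 ⊢; exact c5
    have c6 : w * (1 - 3 * z) ≤ m := by norm_num at c6 ⊢; exact c6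
    have z1 : z ≤ (1471/1000) * m := it hm0 hm hz (by norm_num) (by norm_num) c5 c4 (by norm_num) (by norm_num)
    have w2 : w ≤ (243/200) * m := it hm0 hm hw (by norm_num) (by norm_num) c6 z1 (by norm_num) (by norm_num)
    have z3 : z ≤ (621/500) * m := it hm0 hm hz (by norm_num) (by norm_num) c5 w2 (by norm_num) (by norm_num)
    have w4 : w ≤ (147/125) * m := it hm0 hm hw (by norm_num) (by norm_num) c6 z3 (by norm_num) (by norm_num)
    have z5 : z ≤ (154/125) * m := it hm0 hm hz (by norm_num) (by norm_num) c5 w4 (by norm_num) (by norm_num)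
    have w6 : w ≤ (587/500) * m := it hm0 hm hw (by norm_num) (by norm_num) c6 z5 (by norm_num) (by norm_num)
    have hz9 : z ≤ 31/25 * m := by linarith [z5]
    have hw9 : w ≤ 59/50 * m := by linarith [w6]
    simp [hz9, hw9]
  · have c5 : z * (1 - 5 * w) ≤ m := by norm_num at c5 ⊢; exact c5
    have c6 : w * (1 - 2 * z) ≤ m := by norm_num at c6 ⊢; exact c6
    have z1 : z ≤ (1667/1000) * m := it hm0 hm hz (by norm_num) (by norm_num) c5 c4 (by norm_num) (by norm_num)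
    have w2 : w ≤ (577/500) * m := it hm0 hm hw (by norm_num) (by norm_num) c6 z1 (by norm_num) (by norm_num)
    have z3 : z ≤ (1301/1000) * m := it hm0 hm hz (by norm_num) (by norm_num) c5 w2 (by norm_num) (by norm_num)
    have w4 : w ≤ (1117/1000) * m := it hm0 hm hw (by norm_num) (by norm_num) c6 z3 (by norm_num) (by norm_num)
    have z5 : z ≤ (161/125) * m := it hm0 hm hz (by norm_num) (by norm_num) c5 w4 (by norm_num) (by norm_num)
    have w6 : w ≤ (223/200) * m := it hm0 hm hw (by norm_num) (by norm_num) c6 z5 (by norm_num) (by norm_num)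
    have hz9 : z ≤ 129/100 * m := by linarith [z5]
    have hw9 : w ≤ 28/25 * m := by linarith [w6]
    simp [hz9, hw9]
  · have c5 : z * (1 - 6 * w) ≤ m := by norm_num at c5 ⊢; exact c5
    have c6 : w * (1 - 1 * z) ≤ m := by norm_num at c6 ⊢; exact c6
    have z1 : z ≤ (481/250) * m := it hm0 hm hz (by norm_num) (by norm_num) c5 c4 (by norm_num) (by norm_num)
    have w2 : w ≤ (271/250) * m := it hm0 hm hw (by norm_num) (by norm_num) c6 z1 (by norm_num) (by norm_num)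
    have z3 : z ≤ (169/125) * m := it hm0 hm hz (by norm_num) (by norm_num) c5 w2 (by norm_num) (by norm_num)
    have w4 : w ≤ (529/500) * m := it hm0 hm hw (by norm_num) (by norm_num) c6 z3 (by norm_num) (by norm_num)
    have z5 : z ≤ (1341/1000) * m := it hm0 hm hz (by norm_num) (by norm_num) c5 w4 (by norm_num) (by norm_num)
    have w6 : w ≤ (1057/1000) * m := it hm0 hm hw (by norm_num) (by norm_num) c6 z5 (by norm_num) (by norm_num)
    have z7 : z ≤ (67/50) * m := it hm0 hm hz (by norm_num) (by norm_num) c5 w6 (by norm_num) (by norm_num)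
    have hz9 : z ≤ 67/50 * m := by linarith [z7]
    have hw9 : w ≤ 53/50 * m := by linarith [w6]
    simp [hz9, hw9]

theorem bI {m z w : ℝ} {L : ℕ} (hm0 : 0 < m) (hm : 25 * m ≤ 1) (hl1 : 1 ≤ L) (hl2 : L ≤ 8)
    (hz : 0 ≤ z) (hw : 0 ≤ w) (c3 : z ≤ 2 * m) (c4 : w ≤ 2 * m)
    (c5 : z * (1 - (L : ℝ) * w) ≤ m) (c6 : w * (1 - (9 - (L : ℝ)) * z) ≤ m) :
    (L = 1 ∧ z ≤ 107/100 * m ∧ w ≤ 38/25 * m) ∨
    (L = 2 ∧ z ≤ 57/50 * m ∧ w ≤ 147/100 * m) ∨
    (L = 3 ∧ z ≤ 121/100 * m ∧ w ≤ 141/100 * m) ∨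
    (L = 4 ∧ z ≤ 32/25 * m ∧ w ≤ 27/20 * m) ∨
    (L = 5 ∧ z ≤ 27/20 * m ∧ w ≤ 32/25 * m) ∨
    (L = 6 ∧ z ≤ 141/100 * m ∧ w ≤ 121/100 * m) ∨
    (L = 7 ∧ z ≤ 147/100 * m ∧ w ≤ 57/50 * m) ∨
    (L = 8 ∧ z ≤ 38/25 * m ∧ w ≤ 107/100 * m) := by
  interval_cases L
  · have c5 : z * (1 - 1 * w) ≤ m := by norm_num at c5 ⊢; exact c5
    have c6 : w * (1 - 8 * z) ≤ m := by norm_num at c6 ⊢; exact c6
    have z1 : z ≤ (1087/1000) * m := it hm0 hm hz (by norm_num) (by norm_num) c5 c4 (by norm_num) (by norm_num)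
    have w2 : w ≤ (767/500) * m := it hm0 hm hw (by norm_num) (by norm_num) c6 z1 (by norm_num) (by norm_num)
    have z3 : z ≤ (533/500) * m := it hm0 hm hz (by norm_num) (by norm_num) c5 w2 (by norm_num) (by norm_num)
    have w4 : w ≤ (759/500) * m := it hm0 hm hw (by norm_num) (by norm_num) c6 z3 (by norm_num) (by norm_num)
    have hz9 : z ≤ 107/100 * m := by linarith [z3]
    have hw9 : w ≤ 38/25 * m := by linarith [w4]
    simp [hz9, hw9]
  · have c5 : z * (1 - 2 * w) ≤ m := by norm_num at c5 ⊢; exact c5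
    have c6 : w * (1 - 7 * z) ≤ m := by norm_num at c6 ⊢; exact c6
    have z1 : z ≤ (1191/1000) * m := it hm0 hm hz (by norm_num) (by norm_num) c5 c4 (by norm_num) (by norm_num)
    have w2 : w ≤ (1501/1000) * m := it hm0 hm hw (by norm_num) (by norm_num) c6 z1 (by norm_num) (by norm_num)
    have z3 : z ≤ (1137/1000) * m := it hm0 hm hz (by norm_num) (by norm_num) c5 w2 (by norm_num) (by norm_num)
    have w4 : w ≤ (367/250) * m := it hm0 hm hw (by norm_num) (by norm_num) c6 z3 (by norm_num) (by norm_num)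
    have hz9 : z ≤ 57/50 * m := by linarith [z3]
    have hw9 : w ≤ 147/100 * m := by linarith [w4]
    simp [hz9, hw9]
  · have c5 : z * (1 - 3 * w) ≤ m := by norm_num at c5 ⊢; exact c5
    have c6 : w * (1 - 6 * z) ≤ m := by norm_num at c6 ⊢; exact c6
    have z1 : z ≤ (329/250) * m := it hm0 hm hz (by norm_num) (by norm_num) c5 c4 (by norm_num) (by norm_num)
    have w2 : w ≤ (731/500) * m := it hm0 hm hw (by norm_num) (by norm_num) c6 z1 (by norm_num) (by norm_num)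
    have z3 : z ≤ (1213/1000) * m := it hm0 hm hz (by norm_num) (by norm_num) c5 w2 (by norm_num) (by norm_num)
    have w4 : w ≤ (1411/1000) * m := it hm0 hm hw (by norm_num) (by norm_num) c6 z3 (by norm_num) (by norm_num)
    have z5 : z ≤ (301/250) * m := it hm0 hm hz (by norm_num) (by norm_num) c5 w4 (by norm_num) (by norm_num)
    have w6 : w ≤ (1407/1000) * m := it hm0 hm hw (by norm_num) (by norm_num) c6 z5 (by norm_num) (by norm_num)
    have hz9 : z ≤ 121/100 * m := by linarith [z5]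
    have hw9 : w ≤ 141/100 * m := by linarith [w6]
    simp [hz9, hw9]
  · have c5 : z * (1 - 4 * w) ≤ m := by norm_num at c5 ⊢; exact c5
    have c6 : w * (1 - 5 * z) ≤ m := by norm_num at c6 ⊢; exact c6
    have z1 : z ≤ (1471/1000) * m := it hm0 hm hz (by norm_num) (by norm_num) c5 c4 (by norm_num) (by norm_num)
    have w2 : w ≤ (1417/1000) * m := it hm0 hm hw (by norm_num) (by norm_num) c6 z1 (by norm_num) (by norm_num)
    have z3 : z ≤ (647/500) * m := it hm0 hm hz (by norm_num) (by norm_num) c5 w2 (by norm_num) (by norm_num)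
    have w4 : w ≤ (27/20) * m := it hm0 hm hw (by norm_num) (by norm_num) c6 z3 (by norm_num) (by norm_num)
    have z5 : z ≤ (319/250) * m := it hm0 hm hz (by norm_num) (by norm_num) c5 w4 (by norm_num) (by norm_num)
    have w6 : w ≤ (1343/1000) * m := it hm0 hm hw (by norm_num) (by norm_num) c6 z5 (by norm_num) (by norm_num)
    have hz9 : z ≤ 32/25 * m := by linarith [z5]
    have hw9 : w ≤ 27/20 * m := by linarith [w6]
    simp [hz9, hw9]
  · have c5 : z * (1 - 5 * w) ≤ m := by norm_num at c5 ⊢; exact c5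
    have c6 : w * (1 - 4 * z) ≤ m := by norm_num at c6 ⊢; exact c6
    have z1 : z ≤ (1667/1000) * m := it hm0 hm hz (by norm_num) (by norm_num) c5 c4 (by norm_num) (by norm_num)
    have w2 : w ≤ (341/250) * m := it hm0 hm hw (by norm_num) (by norm_num) c6 z1 (by norm_num) (by norm_num)
    have z3 : z ≤ (172/125) * m := it hm0 hm hz (by norm_num) (by norm_num) c5 w2 (by norm_num) (by norm_num)
    have w4 : w ≤ (1283/1000) * m := it hm0 hm hw (by norm_num) (by norm_num) c6 z3 (by norm_num) (by norm_num)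
    have z5 : z ≤ (673/500) * m := it hm0 hm hz (by norm_num) (by norm_num) c5 w4 (by norm_num) (by norm_num)
    have w6 : w ≤ (51/40) * m := it hm0 hm hw (by norm_num) (by norm_num) c6 z5 (by norm_num) (by norm_num)
    have hz9 : z ≤ 27/20 * m := by linarith [z5]
    have hw9 : w ≤ 32/25 * m := by linarith [w6]
    simp [hz9, hw9]
  · have c5 : z * (1 - 6 * w) ≤ m := by norm_num at c5 ⊢; exact c5
    have c6 : w * (1 - 3 * z) ≤ m := by norm_num at c6 ⊢; exact c6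
    have z1 : z ≤ (481/250) * m := it hm0 hm hz (by norm_num) (by norm_num) c5 c4 (by norm_num) (by norm_num)
    have w2 : w ≤ (1301/1000) * m := it hm0 hm hw (by norm_num) (by norm_num) c6 z1 (by norm_num) (by norm_num)
    have z3 : z ≤ (727/500) * m := it hm0 hm hz (by norm_num) (by norm_num) c5 w2 (by norm_num) (by norm_num)
    have w4 : w ≤ (303/250) * m := it hm0 hm hw (by norm_num) (by norm_num) c6 z3 (by norm_num) (by norm_num)
    have z5 : z ≤ (1411/1000) * m := it hm0 hm hz (by norm_num) (by norm_num) c5 w4 (by norm_num) (by norm_num)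
    have w6 : w ≤ (301/250) * m := it hm0 hm hw (by norm_num) (by norm_num) c6 z5 (by norm_num) (by norm_num)
    have z7 : z ≤ (1407/1000) * m := it hm0 hm hz (by norm_num) (by norm_num) c5 w6 (by norm_num) (by norm_num)
    have hz9 : z ≤ 141/100 * m := by linarith [z7]
    have hw9 : w ≤ 121/100 * m := by linarith [w6]
    simp [hz9, hw9]
  · have c5 : z * (1 - 7 * w) ≤ m := by norm_num at c5 ⊢; exact c5
    have c6 : w * (1 - 2 * z) ≤ m := by norm_num at c6 ⊢; exact c6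
    have w1 : w ≤ (1191/1000) * m := it hm0 hm hw (by norm_num) (by norm_num) c6 c3 (by norm_num) (by norm_num)
    have z2 : z ≤ (1501/1000) * m := it hm0 hm hz (by norm_num) (by norm_num) c5 w1 (by norm_num) (by norm_num)
    have w3 : w ≤ (1137/1000) * m := it hm0 hm hw (by norm_num) (by norm_num) c6 z2 (by norm_num) (by norm_num)
    have z4 : z ≤ (367/250) * m := it hm0 hm hz (by norm_num) (by norm_num) c5 w3 (by norm_num) (by norm_num)
    have w5 : w ≤ (567/500) * m := it hm0 hm hw (by norm_num) (by norm_num) c6 z4 (by norm_num) (by norm_num)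
    have hz9 : z ≤ 147/100 * m := by linarith [z4]
    have hw9 : w ≤ 57/50 * m := by linarith [w5]
    simp [hz9, hw9]
  · have c5 : z * (1 - 8 * w) ≤ m := by norm_num at c5 ⊢; exact c5
    have c6 : w * (1 - 1 * z) ≤ m := by norm_num at c6 ⊢; exact c6
    have w1 : w ≤ (1087/1000) * m := it hm0 hm hw (by norm_num) (by norm_num) c6 c3 (by norm_num) (by norm_num)
    have z2 : z ≤ (767/500) * m := it hm0 hm hz (by norm_num) (by norm_num) c5 w1 (by norm_num) (by norm_num)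
    have w3 : w ≤ (533/500) * m := it hm0 hm hw (by norm_num) (by norm_num) c6 z2 (by norm_num) (by norm_num)
    have z4 : z ≤ (759/500) * m := it hm0 hm hz (by norm_num) (by norm_num) c5 w3 (by norm_num) (by norm_num)
    have w5 : w ≤ (213/200) * m := it hm0 hm hw (by norm_num) (by norm_num) c6 z4 (by norm_num) (by norm_num)
    have hz9 : z ≤ 38/25 * m := by linarith [z4]
    have hw9 : w ≤ 107/100 * m := by linarith [w5]
    simp [hz9, hw9]

theorem v2_1 : ∀ Z ∈ ({1, 53/50} : Set ℝ), ∀ W ∈ ({1, 67/50} : Set ℝ),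
    ∀ X ∈ ({0, 107/100} : Set ℝ), ∀ Y ∈ ({0, 38/25} : Set ℝ),
    0 < FB 7 2 8 1 (63/50) Z W X Y := by
  intro Z hZ W hW X hX Y hY
  simp only [Set.mem_insert_iff, Set.mem_singleton_iff] at hZ hW hX hY
  rcases hZ with rfl | rfl <;> rcases hW with rfl | rfl <;> rcases hX with rfl | rfl <;>
    rcases hY with rfl | rfl <;> norm_num [FB]

theorem v2_2 : ∀ Z ∈ ({1, 53/50} : Set ℝ), ∀ W ∈ ({1, 67/50} : Set ℝ),
    ∀ X ∈ ({0, 57/50} : Set ℝ), ∀ Y ∈ ({0, 147/100} : Set ℝ),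
    0 < FB 7 2 7 2 (9/10) Z W X Y := by
  intro Z hZ W hW X hX Y hY
  simp only [Set.mem_insert_iff, Set.mem_singleton_iff] at hZ hW hX hY
  rcases hZ with rfl | rfl <;> rcases hW with rfl | rfl <;> rcases hX with rfl | rfl <;>
    rcases hY with rfl | rfl <;> norm_num [FB]

theorem v2_3 : ∀ Z ∈ ({1, 53/50} : Set ℝ), ∀ W ∈ ({1, 67/50} : Set ℝ),
    ∀ X ∈ ({0, 121/100} : Set ℝ), ∀ Y ∈ ({0, 141/100} : Set ℝ),
    0 < FB 7 2 6 3 (27/50) Z W X Y := by
  intro Z hZ W hW X hX Y hY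
  simp only [Set.mem_insert_iff, Set.mem_singleton_iff] at hZ hW hX hY
  rcases hZ with rfl | rfl <;> rcases hW with rfl | rfl <;> rcases hX with rfl | rfl <;>
    rcases hY with rfl | rfl <;> norm_num [FB]

theorem v2_4 : ∀ Z ∈ ({1, 53/50} : Set ℝ), ∀ W ∈ ({1, 67/50} : Set ℝ),
    ∀ X ∈ ({0, 32/25} : Set ℝ), ∀ Y ∈ ({0, 27/20} : Set ℝ),
    0 < FB 7 2 5 4 (9/50) Z W X Y := by
  intro Z hZ W hW X hX Y hY
  simp only [Set.mem_insert_iff, Set.mem_singleton_iff] at hZ hW hX hY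
  rcases hZ with rfl | rfl <;> rcases hW with rfl | rfl <;> rcases hX with rfl | rfl <;>
    rcases hY with rfl | rfl <;> norm_num [FB]

theorem v2_5 : ∀ Z ∈ ({1, 53/50} : Set ℝ), ∀ W ∈ ({1, 67/50} : Set ℝ),
    ∀ X ∈ ({0, 27/20} : Set ℝ), ∀ Y ∈ ({0, 32/25} : Set ℝ),
    0 < FB 7 2 4 5 (9/50) Z W X Y := by
  intro Z hZ W hW X hX Y hY
  simp only [Set.mem_insert_iff, Set.mem_singleton_iff] at hZ hW hX hY
  rcases hZ with rfl | rfl <;> rcases hW with rfl | rfl <;> rcases hX with rfl | rfl <;>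
    rcases hY with rfl | rfl <;> norm_num [FB]

theorem v2_6 : ∀ Z ∈ ({1, 53/50} : Set ℝ), ∀ W ∈ ({1, 67/50} : Set ℝ),
    ∀ X ∈ ({0, 141/100} : Set ℝ), ∀ Y ∈ ({0, 121/100} : Set ℝ),
    0 < FB 7 2 3 6 (27/50) Z W X Y := by
  intro Z hZ W hW X hX Y hY
  simp only [Set.mem_insert_iff, Set.mem_singleton_iff] at hZ hW hX hY
  rcases hZ with rfl | rfl <;> rcases hW with rfl | rfl <;> rcases hX with rfl | rfl <;>
    rcases hY with rfl | rfl <;> norm_num [FB]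

theorem v2_7 : ∀ Z ∈ ({1, 53/50} : Set ℝ), ∀ W ∈ ({1, 67/50} : Set ℝ),
    ∀ X ∈ ({0, 147/100} : Set ℝ), ∀ Y ∈ ({0, 57/50} : Set ℝ),
    0 < FB 7 2 2 7 (9/10) Z W X Y := by
  intro Z hZ W hW X hX Y hY
  simp only [Set.mem_insert_iff, Set.mem_singleton_iff] at hZ hW hX hY
  rcases hZ with rfl | rfl <;> rcases hW with rfl | rfl <;> rcases hX with rfl | rfl <;>
    rcases hY with rfl | rfl <;> norm_num [FB]

theorem v2_8 : ∀ Z ∈ ({1, 53/50} : Set ℝ), ∀ W ∈ ({1, 67/50} : Set ℝ),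
    ∀ X ∈ ({0, 38/25} : Set ℝ), ∀ Y ∈ ({0, 107/100} : Set ℝ),
    0 < FB 7 2 1 8 (63/50) Z W X Y := by
  intro Z hZ W hW X hX Y hY
  simp only [Set.mem_insert_iff, Set.mem_singleton_iff] at hZ hW hX hY
  rcases hZ with rfl | rfl <;> rcases hW with rfl | rfl <;> rcases hX with rfl | rfl <;>
    rcases hY with rfl | rfl <;> norm_num [FB]

theorem v3_1 : ∀ Z ∈ ({1, 28/25} : Set ℝ), ∀ W ∈ ({1, 129/100} : Set ℝ),
    ∀ X ∈ ({0, 107/100} : Set ℝ), ∀ Y ∈ ({0, 38/25} : Set ℝ),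
    0 < FB 6 3 8 1 (63/50) Z W X Y := by
  intro Z hZ W hW X hX Y hY
  simp only [Set.mem_insert_iff, Set.mem_singleton_iff] at hZ hW hX hY
  rcases hZ with rfl | rfl <;> rcases hW with rfl | rfl <;> rcases hX with rfl | rfl <;>
    rcases hY with rfl | rfl <;> norm_num [FB]

theorem v3_2 : ∀ Z ∈ ({1, 28/25} : Set ℝ), ∀ W ∈ ({1, 129/100} : Set ℝ),
    ∀ X ∈ ({0, 57/50} : Set ℝ), ∀ Y ∈ ({0, 147/100} : Set ℝ),
    0 < FB 6 3 7 2 (9/10) Z W X Y := by
  intro Z hZ W hW X hX Y hY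
  simp only [Set.mem_insert_iff, Set.mem_singleton_iff] at hZ hW hX hY
  rcases hZ with rfl | rfl <;> rcases hW with rfl | rfl <;> rcases hX with rfl | rfl <;>
    rcases hY with rfl | rfl <;> norm_num [FB]

theorem v3_3 : ∀ Z ∈ ({1, 28/25} : Set ℝ), ∀ W ∈ ({1, 129/100} : Set ℝ),
    ∀ X ∈ ({0, 121/100} : Set ℝ), ∀ Y ∈ ({0, 141/100} : Set ℝ),
    0 < FB 6 3 6 3 (27/50) Z W X Y := by
  intro Z hZ W hW X hX Y hY
  simp only [Set.mem_insert_iff, Set.mem_singleton_iff] at hZ hW hX hY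
  rcases hZ with rfl | rfl <;> rcases hW with rfl | rfl <;> rcases hX with rfl | rfl <;>
    rcases hY with rfl | rfl <;> norm_num [FB]

theorem v3_4 : ∀ Z ∈ ({1, 28/25} : Set ℝ), ∀ W ∈ ({1, 129/100} : Set ℝ),
    ∀ X ∈ ({0, 32/25} : Set ℝ), ∀ Y ∈ ({0, 27/20} : Set ℝ),
    0 < FB 6 3 5 4 (9/50) Z W X Y := by
  intro Z hZ W hW X hX Y hY
  simp only [Set.mem_insert_iff, Set.mem_singleton_iff] at hZ hW hX hY
  rcases hZ with rfl | rfl <;> rcases hW with rfl | rfl <;> rcases hX with rfl | rfl <;>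
    rcases hY with rfl | rfl <;> norm_num [FB]

theorem v3_5 : ∀ Z ∈ ({1, 28/25} : Set ℝ), ∀ W ∈ ({1, 129/100} : Set ℝ),
    ∀ X ∈ ({0, 27/20} : Set ℝ), ∀ Y ∈ ({0, 32/25} : Set ℝ),
    0 < FB 6 3 4 5 (9/50) Z W X Y := by
  intro Z hZ W hW X hX Y hY
  simp only [Set.mem_insert_iff, Set.mem_singleton_iff] at hZ hW hX hY
  rcases hZ with rfl | rfl <;> rcases hW with rfl | rfl <;> rcases hX with rfl | rfl <;>
    rcases hY with rfl | rfl <;> norm_num [FB]

theorem v3_6 : ∀ Z ∈ ({1, 28/25} : Set ℝ), ∀ W ∈ ({1, 129/100} : Set ℝ),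
    ∀ X ∈ ({0, 141/100} : Set ℝ), ∀ Y ∈ ({0, 121/100} : Set ℝ),
    0 < FB 6 3 3 6 (27/50) Z W X Y := by
  intro Z hZ W hW X hX Y hY
  simp only [Set.mem_insert_iff, Set.mem_singleton_iff] at hZ hW hX hY
  rcases hZ with rfl | rfl <;> rcases hW with rfl | rfl <;> rcases hX with rfl | rfl <;>
    rcases hY with rfl | rfl <;> norm_num [FB]

theorem v3_7 : ∀ Z ∈ ({1, 28/25} : Set ℝ), ∀ W ∈ ({1, 129/100} : Set ℝ),
    ∀ X ∈ ({0, 147/100} : Set ℝ), ∀ Y ∈ ({0, 57/50} : Set ℝ),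
    0 < FB 6 3 2 7 (9/10) Z W X Y := by
  intro Z hZ W hW X hX Y hY
  simp only [Set.mem_insert_iff, Set.mem_singleton_iff] at hZ hW hX hY
  rcases hZ with rfl | rfl <;> rcases hW with rfl | rfl <;> rcases hX with rfl | rfl <;>
    rcases hY with rfl | rfl <;> norm_num [FB]

theorem v3_8 : ∀ Z ∈ ({1, 28/25} : Set ℝ), ∀ W ∈ ({1, 129/100} : Set ℝ),
    ∀ X ∈ ({0, 38/25} : Set ℝ), ∀ Y ∈ ({0, 107/100} : Set ℝ),
    0 < FB 6 3 1 8 (63/50) Z W X Y := by
  intro Z hZ W hW X hX Y hY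
  simp only [Set.mem_insert_iff, Set.mem_singleton_iff] at hZ hW hX hY
  rcases hZ with rfl | rfl <;> rcases hW with rfl | rfl <;> rcases hX with rfl | rfl <;>
    rcases hY with rfl | rfl <;> norm_num [FB]

theorem v4_1 : ∀ Z ∈ ({1, 59/50} : Set ℝ), ∀ W ∈ ({1, 31/25} : Set ℝ),
    ∀ X ∈ ({0, 107/100} : Set ℝ), ∀ Y ∈ ({0, 38/25} : Set ℝ),
    0 < FB 5 4 8 1 (63/50) Z W X Y := by
  intro Z hZ W hW X hX Y hY
  simp only [Set.mem_insert_iff, Set.mem_singleton_iff] at hZ hW hX hY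
  rcases hZ with rfl | rfl <;> rcases hW with rfl | rfl <;> rcases hX with rfl | rfl <;>
    rcases hY with rfl | rfl <;> norm_num [FB]

theorem v4_2 : ∀ Z ∈ ({1, 59/50} : Set ℝ), ∀ W ∈ ({1, 31/25} : Set ℝ),
    ∀ X ∈ ({0, 57/50} : Set ℝ), ∀ Y ∈ ({0, 147/100} : Set ℝ),
    0 < FB 5 4 7 2 (9/10) Z W X Y := by
  intro Z hZ W hW X hX Y hY
  simp only [Set.mem_insert_iff, Set.mem_singleton_iff] at hZ hW hX hY
  rcases hZ with rfl | rfl <;> rcases hW with rfl | rfl <;> rcases hX with rfl | rfl <;>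
    rcases hY with rfl | rfl <;> norm_num [FB]

theorem v4_3 : ∀ Z ∈ ({1, 59/50} : Set ℝ), ∀ W ∈ ({1, 31/25} : Set ℝ),
    ∀ X ∈ ({0, 121/100} : Set ℝ), ∀ Y ∈ ({0, 141/100} : Set ℝ),
    0 < FB 5 4 6 3 (27/50) Z W X Y := by
  intro Z hZ W hW X hX Y hY
  simp only [Set.mem_insert_iff, Set.mem_singleton_iff] at hZ hW hX hY
  rcases hZ with rfl | rfl <;> rcases hW with rfl | rfl <;> rcases hX with rfl | rfl <;>
    rcases hY with rfl | rfl <;> norm_num [FB]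

theorem v4_4 : ∀ Z ∈ ({1, 59/50} : Set ℝ), ∀ W ∈ ({1, 31/25} : Set ℝ),
    ∀ X ∈ ({0, 32/25} : Set ℝ), ∀ Y ∈ ({0, 27/20} : Set ℝ),
    0 < FB 5 4 5 4 (9/50) Z W X Y := by
  intro Z hZ W hW X hX Y hY
  simp only [Set.mem_insert_iff, Set.mem_singleton_iff] at hZ hW hX hY
  rcases hZ with rfl | rfl <;> rcases hW with rfl | rfl <;> rcases hX with rfl | rfl <;>
    rcases hY with rfl | rfl <;> norm_num [FB]

theorem v4_5 : ∀ Z ∈ ({1, 59/50} : Set ℝ), ∀ W ∈ ({1, 31/25} : Set ℝ),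
    ∀ X ∈ ({0, 27/20} : Set ℝ), ∀ Y ∈ ({0, 32/25} : Set ℝ),
    0 < FB 5 4 4 5 (9/50) Z W X Y := by
  intro Z hZ W hW X hX Y hY
  simp only [Set.mem_insert_iff, Set.mem_singleton_iff] at hZ hW hX hY
  rcases hZ with rfl | rfl <;> rcases hW with rfl | rfl <;> rcases hX with rfl | rfl <;>
    rcases hY with rfl | rfl <;> norm_num [FB]

theorem v4_6 : ∀ Z ∈ ({1, 59/50} : Set ℝ), ∀ W ∈ ({1, 31/25} : Set ℝ),
    ∀ X ∈ ({0, 141/100} : Set ℝ), ∀ Y ∈ ({0, 121/100} : Set ℝ),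
    0 < FB 5 4 3 6 (27/50) Z W X Y := by
  intro Z hZ W hW X hX Y hY
  simp only [Set.mem_insert_iff, Set.mem_singleton_iff] at hZ hW hX hY
  rcases hZ with rfl | rfl <;> rcases hW with rfl | rfl <;> rcases hX with rfl | rfl <;>
    rcases hY with rfl | rfl <;> norm_num [FB]

theorem v4_7 : ∀ Z ∈ ({1, 59/50} : Set ℝ), ∀ W ∈ ({1, 31/25} : Set ℝ),
    ∀ X ∈ ({0, 147/100} : Set ℝ), ∀ Y ∈ ({0, 57/50} : Set ℝ),
    0 < FB 5 4 2 7 (9/10) Z W X Y := by
  intro Z hZ W hW X hX Y hY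
  simp only [Set.mem_insert_iff, Set.mem_singleton_iff] at hZ hW hX hY
  rcases hZ with rfl | rfl <;> rcases hW with rfl | rfl <;> rcases hX with rfl | rfl <;>
    rcases hY with rfl | rfl <;> norm_num [FB]

theorem v4_8 : ∀ Z ∈ ({1, 59/50} : Set ℝ), ∀ W ∈ ({1, 31/25} : Set ℝ),
    ∀ X ∈ ({0, 38/25} : Set ℝ), ∀ Y ∈ ({0, 107/100} : Set ℝ),
    0 < FB 5 4 1 8 (63/50) Z W X Y := by
  intro Z hZ W hW X hX Y hY
  simp only [Set.mem_insert_iff, Set.mem_singleton_iff] at hZ hW hX hY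
  rcases hZ with rfl | rfl <;> rcases hW with rfl | rfl <;> rcases hX with rfl | rfl <;>
    rcases hY with rfl | rfl <;> norm_num [FB]

theorem v5_1 : ∀ Z ∈ ({1, 31/25} : Set ℝ), ∀ W ∈ ({1, 59/50} : Set ℝ),
    ∀ X ∈ ({0, 107/100} : Set ℝ), ∀ Y ∈ ({0, 38/25} : Set ℝ),
    0 < FB 4 5 8 1 (63/50) Z W X Y := by
  intro Z hZ W hW X hX Y hY
  simp only [Set.mem_insert_iff, Set.mem_singleton_iff] at hZ hW hX hY
  rcases hZ with rfl | rfl <;> rcases hW with rfl | rfl <;> rcases hX with rfl | rfl <;>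
    rcases hY with rfl | rfl <;> norm_num [FB]

theorem v5_2 : ∀ Z ∈ ({1, 31/25} : Set ℝ), ∀ W ∈ ({1, 59/50} : Set ℝ),
    ∀ X ∈ ({0, 57/50} : Set ℝ), ∀ Y ∈ ({0, 147/100} : Set ℝ),
    0 < FB 4 5 7 2 (9/10) Z W X Y := by
  intro Z hZ W hW X hX Y hY
  simp only [Set.mem_insert_iff, Set.mem_singleton_iff] at hZ hW hX hY
  rcases hZ with rfl | rfl <;> rcases hW with rfl | rfl <;> rcases hX with rfl | rfl <;>
    rcases hY with rfl | rfl <;> norm_num [FB]

theorem v5_3 : ∀ Z ∈ ({1, 31/25} : Set ℝ), ∀ W ∈ ({1, 59/50} : Set ℝ),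
    ∀ X ∈ ({0, 121/100} : Set ℝ), ∀ Y ∈ ({0, 141/100} : Set ℝ),
    0 < FB 4 5 6 3 (27/50) Z W X Y := by
  intro Z hZ W hW X hX Y hY
  simp only [Set.mem_insert_iff, Set.mem_singleton_iff] at hZ hW hX hY
  rcases hZ with rfl | rfl <;> rcases hW with rfl | rfl <;> rcases hX with rfl | rfl <;>
    rcases hY with rfl | rfl <;> norm_num [FB]

theorem v5_4 : ∀ Z ∈ ({1, 31/25} : Set ℝ), ∀ W ∈ ({1, 59/50} : Set ℝ),
    ∀ X ∈ ({0, 32/25} : Set ℝ), ∀ Y ∈ ({0, 27/20} : Set ℝ),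
    0 < FB 4 5 5 4 (9/50) Z W X Y := by
  intro Z hZ W hW X hX Y hY
  simp only [Set.mem_insert_iff, Set.mem_singleton_iff] at hZ hW hX hY
  rcases hZ with rfl | rfl <;> rcases hW with rfl | rfl <;> rcases hX with rfl | rfl <;>
    rcases hY with rfl | rfl <;> norm_num [FB]

theorem v5_5 : ∀ Z ∈ ({1, 31/25} : Set ℝ), ∀ W ∈ ({1, 59/50} : Set ℝ),
    ∀ X ∈ ({0, 27/20} : Set ℝ), ∀ Y ∈ ({0, 32/25} : Set ℝ),
    0 < FB 4 5 4 5 (9/50) Z W X Y := by
  intro Z hZ W hW X hX Y hY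
  simp only [Set.mem_insert_iff, Set.mem_singleton_iff] at hZ hW hX hY
  rcases hZ with rfl | rfl <;> rcases hW with rfl | rfl <;> rcases hX with rfl | rfl <;>
    rcases hY with rfl | rfl <;> norm_num [FB]

theorem v5_6 : ∀ Z ∈ ({1, 31/25} : Set ℝ), ∀ W ∈ ({1, 59/50} : Set ℝ),
    ∀ X ∈ ({0, 141/100} : Set ℝ), ∀ Y ∈ ({0, 121/100} : Set ℝ),
    0 < FB 4 5 3 6 (27/50) Z W X Y := by
  intro Z hZ W hW X hX Y hY
  simp only [Set.mem_insert_iff, Set.mem_singleton_iff] at hZ hW hX hY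
  rcases hZ with rfl | rfl <;> rcases hW with rfl | rfl <;> rcases hX with rfl | rfl <;>
    rcases hY with rfl | rfl <;> norm_num [FB]

theorem v5_7 : ∀ Z ∈ ({1, 31/25} : Set ℝ), ∀ W ∈ ({1, 59/50} : Set ℝ),
    ∀ X ∈ ({0, 147/100} : Set ℝ), ∀ Y ∈ ({0, 57/50} : Set ℝ),
    0 < FB 4 5 2 7 (9/10) Z W X Y := by
  intro Z hZ W hW X hX Y hY
  simp only [Set.mem_insert_iff, Set.mem_singleton_iff] at hZ hW hX hY
  rcases hZ with rfl | rfl <;> rcases hW with rfl | rfl <;> rcases hX with rfl | rfl <;>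
    rcases hY with rfl | rfl <;> norm_num [FB]

theorem v5_8 : ∀ Z ∈ ({1, 31/25} : Set ℝ), ∀ W ∈ ({1, 59/50} : Set ℝ),
    ∀ X ∈ ({0, 38/25} : Set ℝ), ∀ Y ∈ ({0, 107/100} : Set ℝ),
    0 < FB 4 5 1 8 (63/50) Z W X Y := by
  intro Z hZ W hW X hX Y hY
  simp only [Set.mem_insert_iff, Set.mem_singleton_iff] at hZ hW hX hY
  rcases hZ with rfl | rfl <;> rcases hW with rfl | rfl <;> rcases hX with rfl | rfl <;>
    rcases hY with rfl | rfl <;> norm_num [FB]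

theorem v6_1 : ∀ Z ∈ ({1, 129/100} : Set ℝ), ∀ W ∈ ({1, 28/25} : Set ℝ),
    ∀ X ∈ ({0, 107/100} : Set ℝ), ∀ Y ∈ ({0, 38/25} : Set ℝ),
    0 < FB 3 6 8 1 (63/50) Z W X Y := by
  intro Z hZ W hW X hX Y hY
  simp only [Set.mem_insert_iff, Set.mem_singleton_iff] at hZ hW hX hY
  rcases hZ with rfl | rfl <;> rcases hW with rfl | rfl <;> rcases hX with rfl | rfl <;>
    rcases hY with rfl | rfl <;> norm_num [FB]

theorem v6_2 : ∀ Z ∈ ({1, 129/100} : Set ℝ), ∀ W ∈ ({1, 28/25} : Set ℝ),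
    ∀ X ∈ ({0, 57/50} : Set ℝ), ∀ Y ∈ ({0, 147/100} : Set ℝ),
    0 < FB 3 6 7 2 (9/10) Z W X Y := by
  intro Z hZ W hW X hX Y hY
  simp only [Set.mem_insert_iff, Set.mem_singleton_iff] at hZ hW hX hY
  rcases hZ with rfl | rfl <;> rcases hW with rfl | rfl <;> rcases hX with rfl | rfl <;>
    rcases hY with rfl | rfl <;> norm_num [FB]

theorem v6_3 : ∀ Z ∈ ({1, 129/100} : Set ℝ), ∀ W ∈ ({1, 28/25} : Set ℝ),
    ∀ X ∈ ({0, 121/100} : Set ℝ), ∀ Y ∈ ({0, 141/100} : Set ℝ),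
    0 < FB 3 6 6 3 (27/50) Z W X Y := by
  intro Z hZ W hW X hX Y hY
  simp only [Set.mem_insert_iff, Set.mem_singleton_iff] at hZ hW hX hY
  rcases hZ with rfl | rfl <;> rcases hW with rfl | rfl <;> rcases hX with rfl | rfl <;>
    rcases hY with rfl | rfl <;> norm_num [FB]

theorem v6_4 : ∀ Z ∈ ({1, 129/100} : Set ℝ), ∀ W ∈ ({1, 28/25} : Set ℝ),
    ∀ X ∈ ({0, 32/25} : Set ℝ), ∀ Y ∈ ({0, 27/20} : Set ℝ),
    0 < FB 3 6 5 4 (9/50) Z W X Y := by
  intro Z hZ W hW X hX Y hY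
  simp only [Set.mem_insert_iff, Set.mem_singleton_iff] at hZ hW hX hY
  rcases hZ with rfl | rfl <;> rcases hW with rfl | rfl <;> rcases hX with rfl | rfl <;>
    rcases hY with rfl | rfl <;> norm_num [FB]

theorem v6_5 : ∀ Z ∈ ({1, 129/100} : Set ℝ), ∀ W ∈ ({1, 28/25} : Set ℝ),
    ∀ X ∈ ({0, 27/20} : Set ℝ), ∀ Y ∈ ({0, 32/25} : Set ℝ),
    0 < FB 3 6 4 5 (9/50) Z W X Y := by
  intro Z hZ W hW X hX Y hY
  simp only [Set.mem_insert_iff, Set.mem_singleton_iff] at hZ hW hX hY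
  rcases hZ with rfl | rfl <;> rcases hW with rfl | rfl <;> rcases hX with rfl | rfl <;>
    rcases hY with rfl | rfl <;> norm_num [FB]

theorem v6_6 : ∀ Z ∈ ({1, 129/100} : Set ℝ), ∀ W ∈ ({1, 28/25} : Set ℝ),
    ∀ X ∈ ({0, 141/100} : Set ℝ), ∀ Y ∈ ({0, 121/100} : Set ℝ),
    0 < FB 3 6 3 6 (27/50) Z W X Y := by
  intro Z hZ W hW X hX Y hY
  simp only [Set.mem_insert_iff, Set.mem_singleton_iff] at hZ hW hX hY
  rcases hZ with rfl | rfl <;> rcases hW with rfl | rfl <;> rcases hX with rfl | rfl <;>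
    rcases hY with rfl | rfl <;> norm_num [FB]

theorem v6_7 : ∀ Z ∈ ({1, 129/100} : Set ℝ), ∀ W ∈ ({1, 28/25} : Set ℝ),
    ∀ X ∈ ({0, 147/100} : Set ℝ), ∀ Y ∈ ({0, 57/50} : Set ℝ),
    0 < FB 3 6 2 7 (9/10) Z W X Y := by
  intro Z hZ W hW X hX Y hY
  simp only [Set.mem_insert_iff, Set.mem_singleton_iff] at hZ hW hX hY
  rcases hZ with rfl | rfl <;> rcases hW with rfl | rfl <;> rcases hX with rfl | rfl <;>
    rcases hY with rfl | rfl <;> norm_num [FB]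

theorem v6_8 : ∀ Z ∈ ({1, 129/100} : Set ℝ), ∀ W ∈ ({1, 28/25} : Set ℝ),
    ∀ X ∈ ({0, 38/25} : Set ℝ), ∀ Y ∈ ({0, 107/100} : Set ℝ),
    0 < FB 3 6 1 8 (63/50) Z W X Y := by
  intro Z hZ W hW X hX Y hY
  simp only [Set.mem_insert_iff, Set.mem_singleton_iff] at hZ hW hX hY
  rcases hZ with rfl | rfl <;> rcases hW with rfl | rfl <;> rcases hX with rfl | rfl <;>
    rcases hY with rfl | rfl <;> norm_num [FB]

theorem v7_1 : ∀ Z ∈ ({1, 67/50} : Set ℝ), ∀ W ∈ ({1, 53/50} : Set ℝ),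
    ∀ X ∈ ({0, 107/100} : Set ℝ), ∀ Y ∈ ({0, 38/25} : Set ℝ),
    0 < FB 2 7 8 1 (63/50) Z W X Y := by
  intro Z hZ W hW X hX Y hY
  simp only [Set.mem_insert_iff, Set.mem_singleton_iff] at hZ hW hX hY
  rcases hZ with rfl | rfl <;> rcases hW with rfl | rfl <;> rcases hX with rfl | rfl <;>
    rcases hY with rfl | rfl <;> norm_num [FB]

theorem v7_2 : ∀ Z ∈ ({1, 67/50} : Set ℝ), ∀ W ∈ ({1, 53/50} : Set ℝ),
    ∀ X ∈ ({0, 57/50} : Set ℝ), ∀ Y ∈ ({0, 147/100} : Set ℝ),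
    0 < FB 2 7 7 2 (9/10) Z W X Y := by
  intro Z hZ W hW X hX Y hY
  simp only [Set.mem_insert_iff, Set.mem_singleton_iff] at hZ hW hX hY
  rcases hZ with rfl | rfl <;> rcases hW with rfl | rfl <;> rcases hX with rfl | rfl <;>
    rcases hY with rfl | rfl <;> norm_num [FB]

theorem v7_3 : ∀ Z ∈ ({1, 67/50} : Set ℝ), ∀ W ∈ ({1, 53/50} : Set ℝ),
    ∀ X ∈ ({0, 121/100} : Set ℝ), ∀ Y ∈ ({0, 141/100} : Set ℝ),
    0 < FB 2 7 6 3 (27/50) Z W X Y := by
  intro Z hZ W hW X hX Y hY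
  simp only [Set.mem_insert_iff, Set.mem_singleton_iff] at hZ hW hX hY
  rcases hZ with rfl | rfl <;> rcases hW with rfl | rfl <;> rcases hX with rfl | rfl <;>
    rcases hY with rfl | rfl <;> norm_num [FB]

theorem v7_4 : ∀ Z ∈ ({1, 67/50} : Set ℝ), ∀ W ∈ ({1, 53/50} : Set ℝ),
    ∀ X ∈ ({0, 32/25} : Set ℝ), ∀ Y ∈ ({0, 27/20} : Set ℝ),
    0 < FB 2 7 5 4 (9/50) Z W X Y := by
  intro Z hZ W hW X hX Y hY
  simp only [Set.mem_insert_iff, Set.mem_singleton_iff] at hZ hW hX hY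
  rcases hZ with rfl | rfl <;> rcases hW with rfl | rfl <;> rcases hX with rfl | rfl <;>
    rcases hY with rfl | rfl <;> norm_num [FB]

theorem v7_5 : ∀ Z ∈ ({1, 67/50} : Set ℝ), ∀ W ∈ ({1, 53/50} : Set ℝ),
    ∀ X ∈ ({0, 27/20} : Set ℝ), ∀ Y ∈ ({0, 32/25} : Set ℝ),
    0 < FB 2 7 4 5 (9/50) Z W X Y := by
  intro Z hZ W hW X hX Y hY
  simp only [Set.mem_insert_iff, Set.mem_singleton_iff] at hZ hW hX hY
  rcases hZ with rfl | rfl <;> rcases hW with rfl | rfl <;> rcases hX with rfl | rfl <;>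
    rcases hY with rfl | rfl <;> norm_num [FB]

theorem v7_6 : ∀ Z ∈ ({1, 67/50} : Set ℝ), ∀ W ∈ ({1, 53/50} : Set ℝ),
    ∀ X ∈ ({0, 141/100} : Set ℝ), ∀ Y ∈ ({0, 121/100} : Set ℝ),
    0 < FB 2 7 3 6 (27/50) Z W X Y := by
  intro Z hZ W hW X hX Y hY
  simp only [Set.mem_insert_iff, Set.mem_singleton_iff] at hZ hW hX hY
  rcases hZ with rfl | rfl <;> rcases hW with rfl | rfl <;> rcases hX with rfl | rfl <;>
    rcases hY with rfl | rfl <;> norm_num [FB]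

theorem v7_7 : ∀ Z ∈ ({1, 67/50} : Set ℝ), ∀ W ∈ ({1, 53/50} : Set ℝ),
    ∀ X ∈ ({0, 147/100} : Set ℝ), ∀ Y ∈ ({0, 57/50} : Set ℝ),
    0 < FB 2 7 2 7 (9/10) Z W X Y := by
  intro Z hZ W hW X hX Y hY
  simp only [Set.mem_insert_iff, Set.mem_singleton_iff] at hZ hW hX hY
  rcases hZ with rfl | rfl <;> rcases hW with rfl | rfl <;> rcases hX with rfl | rfl <;>
    rcases hY with rfl | rfl <;> norm_num [FB]

theorem v7_8 : ∀ Z ∈ ({1, 67/50} : Set ℝ), ∀ W ∈ ({1, 53/50} : Set ℝ),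
    ∀ X ∈ ({0, 38/25} : Set ℝ), ∀ Y ∈ ({0, 107/100} : Set ℝ),
    0 < FB 2 7 1 8 (63/50) Z W X Y := by
  intro Z hZ W hW X hX Y hY
  simp only [Set.mem_insert_iff, Set.mem_singleton_iff] at hZ hW hX hY
  rcases hZ with rfl | rfl <;> rcases hW with rfl | rfl <;> rcases hX with rfl | rfl <;>
    rcases hY with rfl | rfl <;> norm_num [FB]

end F9x

open F9x

theorem tN_final9 : N_final 9 := by
  intro m k l K L aj bj zj wj ai bi zi wi p r Z10 Z01 Z11 W10 W01 W11 h hZ10 hZ01 hZ11 hW10 hW01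
    hW11 hV1 hV2 hz10 hw10 hZz hWw hp1 hr1 hW hZ
  obtain ⟨hm, hm0, hk, hl, hkl, hK, hL, hKL, haj0, hbj0, hai0, hbi0, haj2, hbj2, hai2, hbi2, haj,
    hbj, hai, hbi, hJ1, hJ2, hJ3, hI1, hI2, hp, hr⟩ := h
  have hq : (qb 9 : ℝ) = 25 := by norm_num [qb]
  rw [hq] at hm hW hZ
  simp only [Nat.cast_ofNat] at hJ3 hV1 hV2
  have hp0 : 0 ≤ p := by linarith
  have hr0 : 0 ≤ r := by linarith
  have hzj : 0 < zj := by
    by_contra hc
    push Not at hc
    have : (k : ℝ) * zj ≤ 0 := mul_nonpos_of_nonneg_of_nonpos (by positivity) hc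
    linarith
  have hwj : 0 < wj := by
    by_contra hc
    push Not at hc
    have : (l : ℝ) * wj ≤ 0 := mul_nonpos_of_nonneg_of_nonpos (by positivity) hc
    linarith
  have hzi : 0 < zi := by
    by_contra hc
    push Not at hc
    have : (K : ℝ) * zi ≤ 0 := mul_nonpos_of_nonneg_of_nonpos (by positivity) hc
    linarith
  have hwi : 0 < wi := by
    by_contra hc
    push Not at hc
    have : (L : ℝ) * wi ≤ 0 := mul_nonpos_of_nonneg_of_nonpos (by positivity) hc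
    linarith
  -- replace `k` by `9 - l` and `K` by `9 - L`
  have hkr : (k : ℝ) ≤ 9 - l := by
    have : (k : ℝ) + l ≤ 9 := by exact_mod_cast hkl
    linarith
  have hKr : (K : ℝ) ≤ 9 - L := by
    have : (K : ℝ) + L ≤ 9 := by exact_mod_cast hKL
    linarith
  have hkr1 : (1 : ℝ) ≤ k := by exact_mod_cast hk
  have hKr1 : (1 : ℝ) ≤ K := by exact_mod_cast hK
  have hlr1 : (1 : ℝ) ≤ l := by exact_mod_cast hl
  have hLr1 : (1 : ℝ) ≤ L := by exact_mod_cast hL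
  have haj' : aj ≤ (9 - (l : ℝ)) * zj := haj.trans (mul_le_mul_of_nonneg_right hkr hzj.le)
  have hai' : ai ≤ (9 - (L : ℝ)) * zi := hai.trans (mul_le_mul_of_nonneg_right hKr hzi.le)
  have hz10' : zj ≤ Z10 + (9 - (L : ℝ)) * Z11 :=
    hz10.trans (by linarith [mul_le_mul_of_nonneg_right hKr hZ11])
  have hp1' : 1 - aj - (9 - (L : ℝ)) * Z01 ≤ p := by
    linarith [mul_le_mul_of_nonneg_right hKr hZ01]
  obtain ⟨c1, c2, c3, c4, c5, c6⟩ := jb (k := 9 - (l : ℝ)) (l := (l : ℝ)) hm0 hm (by ring)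
    (by linarith) hlr1 haj0 hbj0 haj2 hbj2 haj' hbj hJ1 hJ2 hJ3
  have hno : ∀ _ : (9 - (l : ℝ)) * l - (9 - (l : ℝ)) - l ≤ 0, False := fun h0 =>
    jno (k := 9 - (l : ℝ)) (l := (l : ℝ)) hm0 hm (by ring)
      (by linarith) hlr1 h0 haj0 hbj0 haj2 hbj2 haj' hbj hJ1 hJ2 hJ3
  have hl1 : 2 ≤ l := by
    by_contra hc
    have : l = 1 := by omega
    subst this
    exact hno (by norm_num)
  have hl2 : l ≤ 7 := by
    by_contra hc
    have : l = 8 := by omega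
    subst this
    exact hno (by norm_num)
  obtain ⟨i3, i4, i5, i6⟩ := ib hzi.le hwi.le hai2 hbi2 hai' hbi hI1 hI2
  have hL2 : L ≤ 8 := by omega
  have hpx : 1 - (9 - (l : ℝ)) * zj - (9 - (L : ℝ)) * Z01 ≤ p := by linarith
  have hry : 1 - (l : ℝ) * wj - (L : ℝ) * W01 ≤ r := by linarith
  have key : ∀ c : ℝ, 0 ≤ c → 9 / 2 * (2 * (L : ℝ) - 9) ≤ 25 * c →
      9 / 2 * (2 * (9 - (L : ℝ)) - 9) ≤ 25 * c →
      FB (9 - (l : ℝ)) l (9 - (L : ℝ)) L c (zj / m) (wj / m) (Z01 / m) (W01 / m) ≤ 0 := by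
    intro c hc0 hc1 hc2
    have hlr : (l : ℝ) ≤ 8 := by linarith
    have hLr : (L : ℝ) ≤ 8 := by linarith
    refine scaled hm0 hm (nnA (by linarith) (by linarith) (by linarith) (by linarith))
      (nnB (by linarith) (by linarith) (by linarith) (by linarith))
      (nnB (by linarith) (by linarith) (by linarith) (by linarith))
      (nnA (by linarith) (by linarith) (by linarith) (by linarith)) hzj.le hwj.le hZ01 hW01 ?_
    exact core (by ring) (by ring) (by linarith) (by linarith) (by linarith) (by linarith) hzj.le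
      hwj.le hZ01 hW01 hpx hry hp0 hr0 hV1 hV2 hz10' hw10 hW11 hZ11 hW hZ hc0 hc1 hc2
  have b1 : 1 ≤ zj / m := by rw [le_div_iff₀ hm0]; linarith
  have b2 : 1 ≤ wj / m := by rw [le_div_iff₀ hm0]; linarith
  have b3 : 0 ≤ Z01 / m := div_nonneg hZ01 hm0.le
  have b4 : 0 ≤ W01 / m := div_nonneg hW01 hm0.le
  have hJb := bJ hm0 hm hl1 hl2 hzj.le hwj.le c3 c4 c5 c6
  have hIb := bI hm0 hm hL hL2 hzi.le hwi.le i3 i4 i5 i6
  clear hJ1 hJ2 hJ3 hI1 hI2 hV1 hV2 hno c5 c6 i5 i6 haj hbj hai hbi hz10 hw10 hp1 hr1 hp hr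
  have u1 : ∀ c : ℝ, zj ≤ c * m → zj / m ≤ c := fun c h => by rw [div_le_iff₀ hm0]; exact h
  have u2 : ∀ c : ℝ, wj ≤ c * m → wj / m ≤ c := fun c h => by rw [div_le_iff₀ hm0]; exact h
  have u3 : ∀ c : ℝ, zi ≤ c * m → Z01 / m ≤ c := fun c h => by
    rw [div_le_iff₀ hm0]; exact hZz.trans h
  have u4 : ∀ c : ℝ, wi ≤ c * m → W01 / m ≤ c := fun c h => by
    rw [div_le_iff₀ hm0]; exact hWw.trans h
  rcases hJb with ⟨rfl, q1, q2⟩ | ⟨rfl, q1, q2⟩ | ⟨rfl, q1, q2⟩ | ⟨rfl, q1, q2⟩ | ⟨rfl, q1, q2⟩ | ⟨rfl, q1, q2⟩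
  · rcases hIb with ⟨rfl, q3, q4⟩ | ⟨rfl, q3, q4⟩ | ⟨rfl, q3, q4⟩ | ⟨rfl, q3, q4⟩ | ⟨rfl, q3, q4⟩ | ⟨rfl, q3, q4⟩ | ⟨rfl, q3, q4⟩ | ⟨rfl, q3, q4⟩
    · have t := key (63/50) (by norm_num) (by norm_num) (by norm_num)
      have t2 := box b1 (u1 _ q1) b2 (u2 _ q2) b3 (u3 _ q3) b4 (u4 _ q4) v2_1
      norm_num at t t2
      linarith
    · have t := key (9/10) (by norm_num) (by norm_num) (by norm_num)
      have t2 := box b1 (u1 _ q1) b2 (u2 _ q2) b3 (u3 _ q3) b4 (u4 _ q4) v2_2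
      norm_num at t t2
      linarith
    · have t := key (27/50) (by norm_num) (by norm_num) (by norm_num)
      have t2 := box b1 (u1 _ q1) b2 (u2 _ q2) b3 (u3 _ q3) b4 (u4 _ q4) v2_3
      norm_num at t t2
      linarith
    · have t := key (9/50) (by norm_num) (by norm_num) (by norm_num)
      have t2 := box b1 (u1 _ q1) b2 (u2 _ q2) b3 (u3 _ q3) b4 (u4 _ q4) v2_4
      norm_num at t t2
      linarith
    · have t := key (9/50) (by norm_num) (by norm_num) (by norm_num)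
      have t2 := box b1 (u1 _ q1) b2 (u2 _ q2) b3 (u3 _ q3) b4 (u4 _ q4) v2_5
      norm_num at t t2
      linarith
    · have t := key (27/50) (by norm_num) (by norm_num) (by norm_num)
      have t2 := box b1 (u1 _ q1) b2 (u2 _ q2) b3 (u3 _ q3) b4 (u4 _ q4) v2_6
      norm_num at t t2
      linarith
    · have t := key (9/10) (by norm_num) (by norm_num) (by norm_num)
      have t2 := box b1 (u1 _ q1) b2 (u2 _ q2) b3 (u3 _ q3) b4 (u4 _ q4) v2_7
      norm_num at t t2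
      linarith
    · have t := key (63/50) (by norm_num) (by norm_num) (by norm_num)
      have t2 := box b1 (u1 _ q1) b2 (u2 _ q2) b3 (u3 _ q3) b4 (u4 _ q4) v2_8
      norm_num at t t2
      linarith
  · rcases hIb with ⟨rfl, q3, q4⟩ | ⟨rfl, q3, q4⟩ | ⟨rfl, q3, q4⟩ | ⟨rfl, q3, q4⟩ | ⟨rfl, q3, q4⟩ | ⟨rfl, q3, q4⟩ | ⟨rfl, q3, q4⟩ | ⟨rfl, q3, q4⟩
    · have t := key (63/50) (by norm_num) (by norm_num) (by norm_num)
      have t2 := box b1 (u1 _ q1) b2 (u2 _ q2) b3 (u3 _ q3) b4 (u4 _ q4) v3_1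
      norm_num at t t2
      linarith
    · have t := key (9/10) (by norm_num) (by norm_num) (by norm_num)
      have t2 := box b1 (u1 _ q1) b2 (u2 _ q2) b3 (u3 _ q3) b4 (u4 _ q4) v3_2
      norm_num at t t2
      linarith
    · have t := key (27/50) (by norm_num) (by norm_num) (by norm_num)
      have t2 := box b1 (u1 _ q1) b2 (u2 _ q2) b3 (u3 _ q3) b4 (u4 _ q4) v3_3
      norm_num at t t2
      linarith
    · have t := key (9/50) (by norm_num) (by norm_num) (by norm_num)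
      have t2 := box b1 (u1 _ q1) b2 (u2 _ q2) b3 (u3 _ q3) b4 (u4 _ q4) v3_4
      norm_num at t t2
      linarith
    · have t := key (9/50) (by norm_num) (by norm_num) (by norm_num)
      have t2 := box b1 (u1 _ q1) b2 (u2 _ q2) b3 (u3 _ q3) b4 (u4 _ q4) v3_5
      norm_num at t t2
      linarith
    · have t := key (27/50) (by norm_num) (by norm_num) (by norm_num)
      have t2 := box b1 (u1 _ q1) b2 (u2 _ q2) b3 (u3 _ q3) b4 (u4 _ q4) v3_6
      norm_num at t t2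
      linarith
    · have t := key (9/10) (by norm_num) (by norm_num) (by norm_num)
      have t2 := box b1 (u1 _ q1) b2 (u2 _ q2) b3 (u3 _ q3) b4 (u4 _ q4) v3_7
      norm_num at t t2
      linarith
    · have t := key (63/50) (by norm_num) (by norm_num) (by norm_num)
      have t2 := box b1 (u1 _ q1) b2 (u2 _ q2) b3 (u3 _ q3) b4 (u4 _ q4) v3_8
      norm_num at t t2
      linarith
  · rcases hIb with ⟨rfl, q3, q4⟩ | ⟨rfl, q3, q4⟩ | ⟨rfl, q3, q4⟩ | ⟨rfl, q3, q4⟩ | ⟨rfl, q3, q4⟩ | ⟨rfl, q3, q4⟩ | ⟨rfl, q3, q4⟩ | ⟨rfl, q3, q4⟩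
    · have t := key (63/50) (by norm_num) (by norm_num) (by norm_num)
      have t2 := box b1 (u1 _ q1) b2 (u2 _ q2) b3 (u3 _ q3) b4 (u4 _ q4) v4_1
      norm_num at t t2
      linarith
    · have t := key (9/10) (by norm_num) (by norm_num) (by norm_num)
      have t2 := box b1 (u1 _ q1) b2 (u2 _ q2) b3 (u3 _ q3) b4 (u4 _ q4) v4_2
      norm_num at t t2
      linarith
    · have t := key (27/50) (by norm_num) (by norm_num) (by norm_num)
      have t2 := box b1 (u1 _ q1) b2 (u2 _ q2) b3 (u3 _ q3) b4 (u4 _ q4) v4_3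
      norm_num at t t2
      linarith
    · have t := key (9/50) (by norm_num) (by norm_num) (by norm_num)
      have t2 := box b1 (u1 _ q1) b2 (u2 _ q2) b3 (u3 _ q3) b4 (u4 _ q4) v4_4
      norm_num at t t2
      linarith
    · have t := key (9/50) (by norm_num) (by norm_num) (by norm_num)
      have t2 := box b1 (u1 _ q1) b2 (u2 _ q2) b3 (u3 _ q3) b4 (u4 _ q4) v4_5
      norm_num at t t2
      linarith
    · have t := key (27/50) (by norm_num) (by norm_num) (by norm_num)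
      have t2 := box b1 (u1 _ q1) b2 (u2 _ q2) b3 (u3 _ q3) b4 (u4 _ q4) v4_6
      norm_num at t t2
      linarith
    · have t := key (9/10) (by norm_num) (by norm_num) (by norm_num)
      have t2 := box b1 (u1 _ q1) b2 (u2 _ q2) b3 (u3 _ q3) b4 (u4 _ q4) v4_7
      norm_num at t t2
      linarith
    · have t := key (63/50) (by norm_num) (by norm_num) (by norm_num)
      have t2 := box b1 (u1 _ q1) b2 (u2 _ q2) b3 (u3 _ q3) b4 (u4 _ q4) v4_8
      norm_num at t t2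
      linarith
  · rcases hIb with ⟨rfl, q3, q4⟩ | ⟨rfl, q3, q4⟩ | ⟨rfl, q3, q4⟩ | ⟨rfl, q3, q4⟩ | ⟨rfl, q3, q4⟩ | ⟨rfl, q3, q4⟩ | ⟨rfl, q3, q4⟩ | ⟨rfl, q3, q4⟩
    · have t := key (63/50) (by norm_num) (by norm_num) (by norm_num)
      have t2 := box b1 (u1 _ q1) b2 (u2 _ q2) b3 (u3 _ q3) b4 (u4 _ q4) v5_1
      norm_num at t t2
      linarith
    · have t := key (9/10) (by norm_num) (by norm_num) (by norm_num)
      have t2 := box b1 (u1 _ q1) b2 (u2 _ q2) b3 (u3 _ q3) b4 (u4 _ q4) v5_2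
      norm_num at t t2
      linarith
    · have t := key (27/50) (by norm_num) (by norm_num) (by norm_num)
      have t2 := box b1 (u1 _ q1) b2 (u2 _ q2) b3 (u3 _ q3) b4 (u4 _ q4) v5_3
      norm_num at t t2
      linarith
    · have t := key (9/50) (by norm_num) (by norm_num) (by norm_num)
      have t2 := box b1 (u1 _ q1) b2 (u2 _ q2) b3 (u3 _ q3) b4 (u4 _ q4) v5_4
      norm_num at t t2
      linarith
    · have t := key (9/50) (by norm_num) (by norm_num) (by norm_num)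
      have t2 := box b1 (u1 _ q1) b2 (u2 _ q2) b3 (u3 _ q3) b4 (u4 _ q4) v5_5
      norm_num at t t2
      linarith
    · have t := key (27/50) (by norm_num) (by norm_num) (by norm_num)
      have t2 := box b1 (u1 _ q1) b2 (u2 _ q2) b3 (u3 _ q3) b4 (u4 _ q4) v5_6
      norm_num at t t2
      linarith
    · have t := key (9/10) (by norm_num) (by norm_num) (by norm_num)
      have t2 := box b1 (u1 _ q1) b2 (u2 _ q2) b3 (u3 _ q3) b4 (u4 _ q4) v5_7
      norm_num at t t2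
      linarith
    · have t := key (63/50) (by norm_num) (by norm_num) (by norm_num)
      have t2 := box b1 (u1 _ q1) b2 (u2 _ q2) b3 (u3 _ q3) b4 (u4 _ q4) v5_8
      norm_num at t t2
      linarith
  · rcases hIb with ⟨rfl, q3, q4⟩ | ⟨rfl, q3, q4⟩ | ⟨rfl, q3, q4⟩ | ⟨rfl, q3, q4⟩ | ⟨rfl, q3, q4⟩ | ⟨rfl, q3, q4⟩ | ⟨rfl, q3, q4⟩ | ⟨rfl, q3, q4⟩
    · have t := key (63/50) (by norm_num) (by norm_num) (by norm_num)
      have t2 := box b1 (u1 _ q1) b2 (u2 _ q2) b3 (u3 _ q3) b4 (u4 _ q4) v6_1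
      norm_num at t t2
      linarith
    · have t := key (9/10) (by norm_num) (by norm_num) (by norm_num)
      have t2 := box b1 (u1 _ q1) b2 (u2 _ q2) b3 (u3 _ q3) b4 (u4 _ q4) v6_2
      norm_num at t t2
      linarith
    · have t := key (27/50) (by norm_num) (by norm_num) (by norm_num)
      have t2 := box b1 (u1 _ q1) b2 (u2 _ q2) b3 (u3 _ q3) b4 (u4 _ q4) v6_3
      norm_num at t t2
      linarith
    · have t := key (9/50) (by norm_num) (by norm_num) (by norm_num)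
      have t2 := box b1 (u1 _ q1) b2 (u2 _ q2) b3 (u3 _ q3) b4 (u4 _ q4) v6_4
      norm_num at t t2
      linarith
    · have t := key (9/50) (by norm_num) (by norm_num) (by norm_num)
      have t2 := box b1 (u1 _ q1) b2 (u2 _ q2) b3 (u3 _ q3) b4 (u4 _ q4) v6_5
      norm_num at t t2
      linarith
    · have t := key (27/50) (by norm_num) (by norm_num) (by norm_num)
      have t2 := box b1 (u1 _ q1) b2 (u2 _ q2) b3 (u3 _ q3) b4 (u4 _ q4) v6_6
      norm_num at t t2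
      linarith
    · have t := key (9/10) (by norm_num) (by norm_num) (by norm_num)
      have t2 := box b1 (u1 _ q1) b2 (u2 _ q2) b3 (u3 _ q3) b4 (u4 _ q4) v6_7
      norm_num at t t2
      linarith
    · have t := key (63/50) (by norm_num) (by norm_num) (by norm_num)
      have t2 := box b1 (u1 _ q1) b2 (u2 _ q2) b3 (u3 _ q3) b4 (u4 _ q4) v6_8
      norm_num at t t2
      linarith
  · rcases hIb with ⟨rfl, q3, q4⟩ | ⟨rfl, q3, q4⟩ | ⟨rfl, q3, q4⟩ | ⟨rfl, q3, q4⟩ | ⟨rfl, q3, q4⟩ | ⟨rfl, q3, q4⟩ | ⟨rfl, q3, q4⟩ | ⟨rfl, q3, q4⟩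
    · have t := key (63/50) (by norm_num) (by norm_num) (by norm_num)
      have t2 := box b1 (u1 _ q1) b2 (u2 _ q2) b3 (u3 _ q3) b4 (u4 _ q4) v7_1
      norm_num at t t2
      linarith
    · have t := key (9/10) (by norm_num) (by norm_num) (by norm_num)
      have t2 := box b1 (u1 _ q1) b2 (u2 _ q2) b3 (u3 _ q3) b4 (u4 _ q4) v7_2
      norm_num at t t2
      linarith
    · have t := key (27/50) (by norm_num) (by norm_num) (by norm_num)
      have t2 := box b1 (u1 _ q1) b2 (u2 _ q2) b3 (u3 _ q3) b4 (u4 _ q4) v7_3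
      norm_num at t t2
      linarith
    · have t := key (9/50) (by norm_num) (by norm_num) (by norm_num)
      have t2 := box b1 (u1 _ q1) b2 (u2 _ q2) b3 (u3 _ q3) b4 (u4 _ q4) v7_4
      norm_num at t t2
      linarith
    · have t := key (9/50) (by norm_num) (by norm_num) (by norm_num)
      have t2 := box b1 (u1 _ q1) b2 (u2 _ q2) b3 (u3 _ q3) b4 (u4 _ q4) v7_5
      norm_num at t t2
      linarith
    · have t := key (27/50) (by norm_num) (by norm_num) (by norm_num)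
      have t2 := box b1 (u1 _ q1) b2 (u2 _ q2) b3 (u3 _ q3) b4 (u4 _ q4) v7_6
      norm_num at t t2
      linarith
    · have t := key (9/10) (by norm_num) (by norm_num) (by norm_num)
      have t2 := box b1 (u1 _ q1) b2 (u2 _ q2) b3 (u3 _ q3) b4 (u4 _ q4) v7_7
      norm_num at t t2
      linarith
    · have t := key (63/50) (by norm_num) (by norm_num) (by norm_num)
      have t2 := box b1 (u1 _ q1) b2 (u2 _ q2) b3 (u3 _ q3) b4 (u4 _ q4) v7_8
      norm_num at t t2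
      linarith

end R745CD
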